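import Mathlib
import Pool.Agent.H75.FreeJac5

/-! Every good endomorphism of a free associative algebra is an automorphism. -/

set_option autoImplicit false

theorem Pool.Agent.Results.MP_54c2ef_al.GoodIsAut.result
    (K : Type*) [Field K] (n : ℕ) (φ : FreeAlgebra K (Fin n) →ₐ[K] FreeAlgebra K (Fin n))
    (good : ∀ m : ℕ, 1 ≤ m →
      ∃ (ψ : FreeAlgebra K (Fin n) →ₐ[K] FreeAlgebra K (Fin n))
        (α : FreeAlgebra K (Fin n) ≃ₐ[K] FreeAlgebra K (Fin n)),
        (φ = ψ.comp α.toAlgHom ∨ φ = α.toAlgHom.comp ψ) ∧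
        ∀ i, ψ (FreeAlgebra.ι K i) - FreeAlgebra.ι K i ∈
          Submodule.span K {p : FreeAlgebra K (Fin n) | ∃ w : List (Fin n),
            m ≤ w.length ∧ p = (w.map (FreeAlgebra.ι K)).prod}) :
    Function.Bijective φ :=
  Pool.Agent.H75.FreeJac.good_bijective good
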